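import Pool.Agent.Helper367_SM.Assembly
import Pool.Agent.Helper367_SM.Fam
import Pool.Agent.Helper367_SM.Inv
import Pool.Agent.Helper367_SM.LimP
import Pool.Agent.Helper367_SM.Guess1
import Pool.Agent.Helper367_SM.GuessMain
import Pool.Agent.Helper367_SM.Single
import Pool.Agent.Helper367_SM.Defn
import Pool.Agent.Helper367_SM.Ext1
import Pool.Agent.Helper367_SM.Ext2
import Pool.Agent.Helper367_SM.BF
import Pool.Agent.Helper367_SM.EF
import Pool.Agent.Helper367_SM.Unif
import Pool.Agent.Helper367_SM.InK
import Pool.Agent.Helper367_SM.ConstrM
import Pool.Agent.Helper367_SM.CompM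
import Pool.Agent.Helper367_SM.JTransfer
import Pool.Agent.Helper367_SM.JPrime
import Pool.Agent.Helper367_SM.JPi4
import Pool.Agent.Helper367_SM.JPost
import Pool.Agent.Helper367_SM.JDecode
import Pool.Agent.Helper367_SM.JCompModel
import Pool.Agent.Helper367_SM.JCodingModel

set_option autoImplicit false

/-!
# MP_fd2900_lc, Q1: a full negative answer

There is a strongly minimal theory with a computable prime model and with a countable model which
has no copy computable in the double jump of the empty set.
-/

namespace Pool.Agent.Results.MP_fd2900_lc.StronglyMinimalNotZeroPP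

open FirstOrder Pool.Agent.Helper367SM

/-- There are a computable signature `σ` and a strongly minimal theory `T` in its language whose
prime model has a computable copy, and a countable model `N` of `T` which has no copy (with
universe a subset of the natural numbers) whose universe and atomic diagram are computable
relative to the double jump of the empty set. -/
theorem result :
    ∃ (σ : CSig) (T : σ.lang.Theory), StronglyMinimal T ∧
      (∃ (M : Type) (_ : σ.lang.Structure M), IsPrimeModel T M ∧ HasCopyIn σ ∅ M) ∧
      ∃ (N : Type) (_ : σ.lang.Structure N), Countable N ∧ Nonempty N ∧ N ⊨ T ∧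
        ¬ HasCopyIn σ {charFn zeroPP} N := by
  have hSingle : S_Single := Single_proof Family_proof Matched_proof
  have hExt1 : S_Ext1 := Ext1_proof hSingle
  have hExt2 : S_Ext2 := Ext2_proof Family_proof Matched_proof
  have hBF : S_BF := BF_proof (Ext3_proof hExt1 hExt2) Free_proof
  have hUnif : S_Unif := Unif_proof (EF_proof hBF) Par_proof
  have hCod : S_CodingModel := CodingModel_proof (D1_proof hSingle) (D2_proof hSingle)
    (D3_proof hSingle) (D4_proof hSingle) D5_proof D6_proof Prime_proof
  exact final_of_parts (Lim_proof Inv_proof) (Guess_proof Guess.GuessProp_proof)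
    (Constr_proof InKPrim_proof) CompM_proof hUnif Transfer_proof Prime_proof CompModel_proof hCod
    Pi4_proof (Decode_proof Post_proof)

end Pool.Agent.Results.MP_fd2900_lc.StronglyMinimalNotZeroPP
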